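import Pool.Agent.Helper63.PL.Goals

set_option autoImplicit false

open MeasureTheory Set
open scoped ENNReal ContDiff

namespace Pool.Agent.Helper31.PL

open Pool.Agent.Helper63.PL

theorem su (h : KeStmt) : SuStmt := by
  intro N δ B ρ hδ hρ p _ hp b D hD q hq x hx
  obtain ⟨h1, h2, -⟩ := h.2 N δ B ρ hδ hρ p hp
  have hcont : Continuous (fun u : Lp ℝ p (volume : Measure (E N)) => mol ρ u x) := by
    have hlip : LipschitzWith (Real.toNNReal (B ^ (1 / p.toReal)))
        (fun u : Lp ℝ p (volume : Measure (E N)) => mol ρ u x) := by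
      apply LipschitzWith.of_dist_le_mul
      intro u v
      rw [Real.dist_eq, dist_eq_norm, ← h2 u v x]
      refine ((h1 (u - v)).1 x).trans ?_
      exact mul_le_mul_of_nonneg_right (Real.le_coe_toNNReal _) (norm_nonneg _)
    exact hlip.continuous
  have hcl : IsClosed {q : Pair N p | mol ρ q.1 x = 0} :=
    isClosed_eq (hcont.comp continuous_fst) continuous_const
  have hsub : TestPairs N p D ⊆ {q : Pair N p | mol ρ q.1 x = 0} := by
    rintro q ⟨φ, -, -, hφ, hq1, -⟩
    show mol ρ q.1 x = 0
    unfold mol
    have : (fun y => ρ (x - y) * (q.1 : E N → ℝ) y) =ᵐ[volume] fun _ => (0 : ℝ) := by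
      filter_upwards [hq1] with y hy
      rw [hy]
      by_cases hxy : δ ≤ ‖x - y‖
      · rw [hρ.zero _ hxy, zero_mul]
      · have hy0 : y ∉ tsupport φ := by
          intro hys
          have hyb : y ∈ Metric.ball (0 : E N) b := hD (hφ hys)
          rw [mem_ball_zero_iff] at hyb
          have : ‖x‖ ≤ ‖x - y‖ + ‖y‖ := by
            have := norm_add_le (x - y) y
            simpa using this
          push Not at hxy
          linarith
        rw [image_eq_zero_of_notMem_tsupport hy0, mul_zero]
    rw [integral_congr_ae this]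
    simp
  exact (closure_minimal hsub hcl) hq

end Pool.Agent.Helper31.PL
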